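import Pool.Agent.BdReg.Q
import Pool.Agent.BdReg.Stmt

set_option autoImplicit false

open Pool.Agent.BdReg

namespace Pool.Agent.Results.MP_071e05_an.BoundaryDifferentiable

/-- Q1 holds for every `f` which is differentiable at one boundary point: in the situation of Q1
(all `1 ≤ n < N`), if `f` has an extension `F` to one point `ζ` of the unit sphere which is real
differentiable at `ζ` relative to the ball, then `f` is linear. -/
theorem result {n N : ℕ} (hn : 1 ≤ n) (hN : n < N) {Γ : Subgroup (Equiv.Perm (Bn N))}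
    (hΓ : DiscreteAut Γ) {f : EuclideanSpace ℂ (Fin n) → EuclideanSpace ℂ (Fin N)}
    (hf : ProperEmbedding f) (hq : CompactQuotient Γ f)
    (hd : ∃ ζ : EuclideanSpace ℂ (Fin n), ‖ζ‖ = 1 ∧
      ∃ F : EuclideanSpace ℂ (Fin n) → EuclideanSpace ℂ (Fin N),
        Set.EqOn F f (Bn n) ∧ DifferentiableWithinAt ℝ F (Bn n) ζ) :
    LinearMapOfBalls f := by
  obtain ⟨ζ, hζ, F, hF, hd⟩ := hd
  have hQ : Q1Hyp n N Γ f := ⟨hn, hN, hΓ.1, hΓ.2, hf.1, hf.2.1, hf.2.2.1, hf.2.2.2.1,
    hf.2.2.2.2, hq.1, hq.2⟩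
  exact hQ.part1 hζ hF hd

end Pool.Agent.Results.MP_071e05_an.BoundaryDifferentiable
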