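import Pool.Agent.BdReg.Q
import Pool.Agent.BdReg.Stmt

set_option autoImplicit false

open Pool.Agent.BdReg Filter Topology

namespace Pool.Agent.Results.MP_071e05_an.HoelderGap

/-- A gap in the boundary regularity.  In the situation of Q1 (all `1 ≤ n < N`), if `f` is not linear,
there is `α < 1` such that for a dense set of points `ζ` of the unit sphere
`1 - ‖f (r ζ)‖ ≥ c (1 - r) ^ α` for all `0 ≤ r < 1`, with `c = c (ζ) > 0`; hence `f` is not Hölder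
continuous of an exponent `β > α` on any open piece of the ball touching the sphere, and for a comeagre
set of `ζ` the distance of `f (r ζ)` to the sphere is at least `(1 - r) ^ β` for `r` arbitrarily
close to `1`. -/
theorem result {n N : ℕ} (hn : 1 ≤ n) (hN : n < N) {Γ : Subgroup (Equiv.Perm (Bn N))}
    (hΓ : DiscreteAut Γ) {f : EuclideanSpace ℂ (Fin n) → EuclideanSpace ℂ (Fin N)}
    (hf : ProperEmbedding f) (hq : CompactQuotient Γ f) (hl : ¬ LinearMapOfBalls f) :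
    ∃ α : ℝ, 0 < α ∧ α < 1 ∧
      (∀ ζ0 : EuclideanSpace ℂ (Fin n), ‖ζ0‖ = 1 → ∀ ρ > (0 : ℝ),
        ∃ ζ : EuclideanSpace ℂ (Fin n), ‖ζ‖ = 1 ∧ ‖ζ - ζ0‖ < ρ ∧
          ∃ c > (0 : ℝ), ∀ r : ℝ, 0 ≤ r → r < 1 → c * (1 - r) ^ α ≤ 1 - ‖f ((r : ℂ) • ζ)‖) ∧
      (∀ U : Set (EuclideanSpace ℂ (Fin n)), IsOpen U →
        (U ∩ Metric.sphere 0 1).Nonempty → ∀ β > α,
        ¬ ∃ C : ℝ, ∀ z ∈ U ∩ Bn n, ∀ w ∈ U ∩ Bn n, ‖f z - f w‖ ≤ C * ‖z - w‖ ^ β) ∧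
      (∀ β > α, ∀ᶠ ζ in residual (Metric.sphere (0 : EuclideanSpace ℂ (Fin n)) 1),
        ∃ᶠ r : ℝ in 𝓝[<] 1, (1 - r) ^ β ≤ 1 - ‖f ((r : ℂ) • ζ.1)‖) := by
  have hQ : Q1Hyp n N Γ f := ⟨hn, hN, hΓ.1, hΓ.2, hf.1, hf.2.1, hf.2.2.1, hf.2.2.2.1,
    hf.2.2.2.2, hq.1, hq.2⟩
  exact hQ.gap hl

end Pool.Agent.Results.MP_071e05_an.HoelderGap
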