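import Pool.Agent.BdReg.Q
import Pool.Agent.BdReg.Stmt

set_option autoImplicit false

open Pool.Agent.BdReg

namespace Pool.Agent.Results.MP_071e05_an.UniformGap

/-- In the situation of Q1, if `f` is not linear and either `n = 1` or `f` maps no complex line section of
the ball into a complex line, there are `α < 1` and `c > 0` with `1 - ‖f z‖ ≥ c (1 - ‖z‖) ^ α` on the
whole ball. -/
theorem result {n N : ℕ} (hn : 1 ≤ n) (hN : n < N) {Γ : Subgroup (Equiv.Perm (Bn N))}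
    (hΓ : DiscreteAut Γ) {f : EuclideanSpace ℂ (Fin n) → EuclideanSpace ℂ (Fin N)}
    (hf : ProperEmbedding f) (hq : CompactQuotient Γ f) (hl : ¬ LinearMapOfBalls f)
    (hc : n = 1 ∨ ¬ ∃ a ∈ Bn n, ∃ b ∈ Bn n, a ≠ b ∧
      ∀ c : ℂ, a + c • (b - a) ∈ Bn n → ∃ d : ℂ, f (a + c • (b - a)) = f a + d • (f b - f a)) :
    ∃ α : ℝ, 0 < α ∧ α < 1 ∧ ∃ c > (0 : ℝ), ∀ z ∈ Bn n, c * (1 - ‖z‖) ^ α ≤ 1 - ‖f z‖ := by
  have hQ : Q1Hyp n N Γ f := ⟨hn, hN, hΓ.1, hΓ.2, hf.1, hf.2.1, hf.2.2.1, hf.2.2.2.1,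
    hf.2.2.2.2, hq.1, hq.2⟩
  exact hQ.gap_uniform hl hc

end Pool.Agent.Results.MP_071e05_an.UniformGap
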